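import Pool.Agent.W928.MW.Trans
import Pool.Agent.W225.MWDIO

set_option autoImplicit false

/-!
# Weyl sums at the multiples of an algebraic number (helper363)

The number of the representations of an integer in the fourth moment.
-/

open Finset Polynomial

namespace Pool.Agent.U363.AM

open Pool.Agent.W928.MW (dl prs)

/-- the `y` completing two divisors to a solution -/
noncomputable def Rt (k N : ℕ) (a b v : ℤ) : Finset ℕ := by
  classical
  exact (Icc 1 N).filter fun y : ℕ =>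
    ((y : ℤ) + a) ^ k + ((y : ℤ) - b) ^ k - ((y : ℤ) ^ k + ((y : ℤ) + a - b) ^ k) = v

theorem card_Rt (k N : ℕ) (hk : 3 ≤ k) (a b v : ℤ) (ha : a ≠ 0) (hb : b ≠ 0) :
    (Rt k N a b v).card ≤ k := by
  classical
  set P : ℤ[X] := (X + C a) ^ k + (X + C (-b)) ^ k - (X ^ k + (X + C (a - b)) ^ k) - C v with hP
  have hcoef : P.coeff (k - 2) ≠ 0 := by
    have h2 : k - (k - 2) = 2 := by omega
    have h3 : k ≠ k - 2 := by omega
    have h4 : k - 2 ≠ 0 := by omega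
    rw [hP, coeff_sub, coeff_sub, coeff_add, coeff_add, coeff_X_add_C_pow, coeff_X_add_C_pow,
      coeff_X_add_C_pow, coeff_X_pow, coeff_C, if_neg h3.symm, if_neg h4, h2]
    have h5 : ((k.choose (k - 2) : ℕ) : ℤ) ≠ 0 := by
      have := Nat.choose_pos (n := k) (k := k - 2) (by omega)
      exact_mod_cast this.ne'
    have h6 : a ^ 2 * ((k.choose (k - 2) : ℕ) : ℤ) + (-b) ^ 2 * ((k.choose (k - 2) : ℕ) : ℤ) -
        (0 + (a - b) ^ 2 * ((k.choose (k - 2) : ℕ) : ℤ)) - 0 =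
        2 * a * b * ((k.choose (k - 2) : ℕ) : ℤ) := by ring
    rw [h6]
    exact mul_ne_zero (mul_ne_zero (mul_ne_zero two_ne_zero ha) hb) h5
  have hP0 : P ≠ 0 := by
    intro h
    rw [h, coeff_zero] at hcoef
    exact hcoef rfl
  have hdeg : P.natDegree ≤ k := by
    have d1 : ∀ r : ℤ, ((X + C r) ^ k : ℤ[X]).natDegree ≤ k := fun r => by
      refine natDegree_pow_le.trans ?_
      rw [natDegree_X_add_C, mul_one]
    rw [hP]
    refine (natDegree_sub_le _ _).trans (max_le ?_ (by rw [natDegree_C]; omega))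
    refine (natDegree_sub_le _ _).trans (max_le ?_ ?_)
    · exact (natDegree_add_le _ _).trans (max_le (d1 _) (d1 _))
    · refine (natDegree_add_le _ _).trans (max_le ?_ (d1 _))
      rw [natDegree_X_pow]
  have h1 : (Rt k N a b v).image (fun y : ℕ => (y : ℤ)) ⊆ P.roots.toFinset := by
    intro x hx
    rw [mem_image] at hx
    obtain ⟨y, hy, rfl⟩ := hx
    unfold Rt at hy
    rw [mem_filter] at hy
    rw [Multiset.mem_toFinset, mem_roots hP0, IsRoot.def, hP]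
    simp only [eval_sub, eval_add, eval_pow, eval_X, eval_C]
    have h := hy.2
    have e1 : (y : ℤ) + -b = (y : ℤ) - b := by ring
    have e2 : (y : ℤ) + (a - b) = (y : ℤ) + a - b := by ring
    rw [e1, e2]
    linarith
  have h2 : ((Rt k N a b v).image (fun y : ℕ => (y : ℤ))).card = (Rt k N a b v).card :=
    card_image_of_injective _ Nat.cast_injective
  rw [← h2]
  exact (card_le_card h1).trans ((Multiset.toFinset_card_le _).trans ((card_roots' P).trans hdeg))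

/-- pairs of pairs with the same sum -/
def TT (N : ℕ) : Finset ((ℕ × ℕ) × (ℕ × ℕ)) :=
  ((Icc 1 N ×ˢ Icc 1 N) ×ˢ (Icc 1 N ×ˢ Icc 1 N)).filter fun p => p.2.1 + p.2.2 = p.1.1 + p.1.2

theorem card_diag (k N : ℕ) (hk : 2 ≤ k) :
    ((TT N).filter fun p => dl k p.2 p.1 = 0).card ≤ 2 * N ^ 2 := by
  classical
  have hsub : ((TT N).filter fun p => dl k p.2 p.1 = 0) ⊆
      (Icc 1 N ×ˢ Icc 1 N).biUnion fun w => {(w, w), (w, (w.2, w.1))} := by
    rintro ⟨⟨y1, y2⟩, ⟨x1, x2⟩⟩ hp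
    rw [mem_filter] at hp
    obtain ⟨hT, hd⟩ := hp
    unfold TT at hT
    rw [mem_filter, mem_product, mem_product, mem_product, mem_Icc, mem_Icc, mem_Icc, mem_Icc] at hT
    obtain ⟨⟨⟨⟨a1, a2⟩, a3, a4⟩, ⟨a5, a6⟩, a7, a8⟩, hs⟩ := hT
    simp only at a1 a2 a3 a4 a5 a6 a7 a8 hs
    have h1 := Pool.Agent.W225.MWD.t k x1 x2 y1 y2 hk hs
    have h2 : (x1 : ℝ) ^ k + (x2 : ℝ) ^ k - (y1 : ℝ) ^ k - (y2 : ℝ) ^ k = 0 := by
      unfold dl at hd
      have h3 : (((((x1 : ℕ) : ℤ) ^ k + ((x2 : ℕ) : ℤ) ^ k) -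
        (((y1 : ℕ) : ℤ) ^ k + ((y2 : ℕ) : ℤ) ^ k) : ℤ) : ℝ) = ((0 : ℤ) : ℝ) := by
        exact_mod_cast hd
      push_cast at h3
      linarith
    rw [h2, abs_zero] at h1
    have hmax : 0 < (max (max (x1 : ℝ) (x2 : ℝ)) (max (y1 : ℝ) (y2 : ℝ))) ^ (k - 2) := by
      have : (1 : ℝ) ≤ x1 := by exact_mod_cast a5
      have h4 : (1 : ℝ) ≤ max (max (x1 : ℝ) (x2 : ℝ)) (max (y1 : ℝ) (y2 : ℝ)) :=
        this.trans ((le_max_left _ _).trans (le_max_left _ _))
      positivity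
    have h5 : |(x1 : ℝ) - (y1 : ℝ)| * |(x1 : ℝ) - (y2 : ℝ)| = 0 := by
      have h6 : 0 ≤ |(x1 : ℝ) - (y1 : ℝ)| * |(x1 : ℝ) - (y2 : ℝ)| := by positivity
      rcases h6.lt_or_eq with h7 | h7
      · have := mul_pos h7 hmax
        linarith
      · exact h7.symm
    rw [mem_biUnion]
    refine ⟨(y1, y2), mem_product.2 ⟨mem_Icc.2 ⟨a1, a2⟩, mem_Icc.2 ⟨a3, a4⟩⟩, ?_⟩
    rw [mem_insert, mem_singleton]
    rcases mul_eq_zero.1 h5 with h | h
    · left
      have h8 : (x1 : ℝ) = y1 := by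
        have := abs_eq_zero.1 h
        linarith
      have h9 : x1 = y1 := by exact_mod_cast h8
      have h10 : x2 = y2 := by omega
      rw [h9, h10]
    · right
      have h8 : (x1 : ℝ) = y2 := by
        have := abs_eq_zero.1 h
        linarith
      have h9 : x1 = y2 := by exact_mod_cast h8
      have h10 : x2 = y1 := by omega
      rw [h9, h10]
  refine (card_le_card hsub).trans (card_biUnion_le.trans ?_)
  refine (sum_le_card_nsmul _ _ 2 fun w _ => card_le_two).trans (le_of_eq ?_)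
  rw [card_product, Nat.card_Icc]
  simp only [Nat.add_sub_cancel, smul_eq_mul]
  ring

/-- the divisors with both signs -/
noncomputable def Dv (h : ℕ) : Finset ℤ := by
  classical
  exact (h.divisors.image fun d : ℕ => (d : ℤ)) ∪ (h.divisors.image fun d : ℕ => -(d : ℤ))

theorem mem_Dv {h : ℕ} {a v : ℤ} (hh : 1 ≤ h) (hv : v.natAbs = h) (ha : a ∣ v) : a ∈ Dv h := by
  classical
  have h1 : a.natAbs ∈ h.divisors := by
    rw [Nat.mem_divisors]
    refine ⟨?_, by omega⟩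
    rw [← hv]
    exact Int.natAbs_dvd_natAbs.2 ha
  unfold Dv
  rw [mem_union, mem_image, mem_image]
  rcases Int.natAbs_eq a with h2 | h2
  · left
    exact ⟨a.natAbs, h1, h2.symm⟩
  · right
    exact ⟨a.natAbs, h1, h2.symm⟩

theorem card_Dv (h : ℕ) : (Dv h).card ≤ 2 * h.divisors.card := by
  classical
  unfold Dv
  refine (card_union_le _ _).trans ?_
  have h1 := card_image_le (s := h.divisors) (f := fun d : ℕ => (d : ℤ))
  have h2 := card_image_le (s := h.divisors) (f := fun d : ℕ => -(d : ℤ))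
  omega

theorem card_rep (k N : ℕ) (hk : 3 ≤ k) (h : ℕ) (hh : 1 ≤ h) :
    ((TT N).filter fun p => (dl k p.2 p.1).natAbs = h).card ≤ 8 * k * h.divisors.card ^ 2 := by
  classical
  set I : Finset (ℤ × ℤ × ℤ) := (((Dv h) ×ˢ (Dv h) ×ˢ ({(h : ℤ), -(h : ℤ)} : Finset ℤ))).filter
    (fun i => i.1 ≠ 0 ∧ i.2.1 ≠ 0) with hI
  have hsub : ((TT N).filter fun p => (dl k p.2 p.1).natAbs = h) ⊆
      I.biUnion fun i => (Rt k N i.1 i.2.1 i.2.2).image fun y : ℕ =>
        ((y, ((y : ℤ) + i.1 - i.2.1).toNat), (((y : ℤ) + i.1).toNat, ((y : ℤ) - i.2.1).toNat)) := by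
    rintro ⟨⟨y1, y2⟩, ⟨x1, x2⟩⟩ hp
    rw [mem_filter] at hp
    obtain ⟨hT, hd⟩ := hp
    unfold TT at hT
    rw [mem_filter, mem_product, mem_product, mem_product, mem_Icc, mem_Icc, mem_Icc, mem_Icc] at hT
    obtain ⟨⟨⟨⟨a1, a2⟩, a3, a4⟩, ⟨a5, a6⟩, a7, a8⟩, hs⟩ := hT
    simp only at a1 a2 a3 a4 a5 a6 a7 a8 hs hd
    set a : ℤ := (x1 : ℤ) - y1 with ha
    set b : ℤ := (x1 : ℤ) - y2 with hb
    have hx1 : (x1 : ℤ) = (y1 : ℤ) + a := by rw [ha]; ring
    have hy2 : (y2 : ℤ) = (y1 : ℤ) + a - b := by rw [ha, hb]; ring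
    have hx2 : (x2 : ℤ) = (y1 : ℤ) - b := by
      have h1 : (x1 : ℤ) + x2 = (y1 : ℤ) + y2 := by exact_mod_cast hs
      rw [hb]
      linarith
    set v : ℤ := dl k (x1, x2) (y1, y2) with hv
    have hve : v = ((x1 : ℤ) ^ k + (x2 : ℤ) ^ k) - ((y1 : ℤ) ^ k + (y2 : ℤ) ^ k) := rfl
    have hadv : a ∣ v := by
      rw [hve]
      have e1 : ((x1 : ℤ) ^ k + (x2 : ℤ) ^ k) - ((y1 : ℤ) ^ k + (y2 : ℤ) ^ k) =
          ((x1 : ℤ) ^ k - (y1 : ℤ) ^ k) - ((y2 : ℤ) ^ k - (x2 : ℤ) ^ k) := by ring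
      rw [e1]
      apply dvd_sub
      · exact sub_dvd_pow_sub_pow _ _ k
      · have e2 : a = (y2 : ℤ) - x2 := by
          rw [hy2, hx2]
          ring
        rw [e2]
        exact sub_dvd_pow_sub_pow _ _ k
    have hbdv : b ∣ v := by
      rw [hve]
      have e1 : ((x1 : ℤ) ^ k + (x2 : ℤ) ^ k) - ((y1 : ℤ) ^ k + (y2 : ℤ) ^ k) =
          ((x1 : ℤ) ^ k - (y2 : ℤ) ^ k) - ((y1 : ℤ) ^ k - (x2 : ℤ) ^ k) := by ring
      rw [e1]
      apply dvd_sub
      · exact sub_dvd_pow_sub_pow _ _ k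
      · have e2 : b = (y1 : ℤ) - x2 := by
          rw [hx2]
          ring
        rw [e2]
        exact sub_dvd_pow_sub_pow _ _ k
    have hv0 : v ≠ 0 := by
      intro h0
      rw [h0] at hd
      simp at hd
      omega
    have ha0 : a ≠ 0 := fun h0 => hv0 (by rw [h0] at hadv; exact zero_dvd_iff.1 hadv)
    have hb0 : b ≠ 0 := fun h0 => hv0 (by rw [h0] at hbdv; exact zero_dvd_iff.1 hbdv)
    rw [mem_biUnion]
    refine ⟨(a, b, v), ?_, ?_⟩
    · rw [hI, mem_filter, mem_product, mem_product]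
      refine ⟨⟨mem_Dv hh hd hadv, mem_Dv hh hd hbdv, ?_⟩, ha0, hb0⟩
      rw [mem_insert, mem_singleton]
      show v = (h : ℤ) ∨ v = -(h : ℤ)
      rw [← hd]
      exact Int.natAbs_eq v
    · rw [mem_image]
      refine ⟨y1, ?_, ?_⟩
      · unfold Rt
        rw [mem_filter]
        refine ⟨mem_Icc.2 ⟨a1, a2⟩, ?_⟩
        show ((y1 : ℤ) + a) ^ k + ((y1 : ℤ) - b) ^ k - ((y1 : ℤ) ^ k + ((y1 : ℤ) + a - b) ^ k) = v
        rw [← hy2, ← hx1, ← hx2, hve]
      · show ((y1, ((y1 : ℤ) + a - b).toNat), (((y1 : ℤ) + a).toNat, ((y1 : ℤ) - b).toNat)) =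
          ((y1, y2), (x1, x2))
        rw [← hy2, ← hx1, ← hx2]
        simp
  refine (card_le_card hsub).trans (card_biUnion_le.trans ?_)
  have h1 : ∀ i ∈ I, ((Rt k N i.1 i.2.1 i.2.2).image fun y : ℕ =>
        ((y, ((y : ℤ) + i.1 - i.2.1).toNat), (((y : ℤ) + i.1).toNat,
          ((y : ℤ) - i.2.1).toNat))).card ≤ k := by
    intro i hi
    rw [hI, mem_filter] at hi
    exact card_image_le.trans (card_Rt k N hk _ _ _ hi.2.1 hi.2.2)
  refine (sum_le_card_nsmul _ _ k h1).trans ?_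
  have h2 : I.card ≤ (Dv h).card * ((Dv h).card * 2) := by
    rw [hI]
    refine (card_filter_le _ _).trans ?_
    rw [card_product, card_product]
    exact Nat.mul_le_mul_left _ (Nat.mul_le_mul_left _ card_le_two)
  have h3 := card_Dv h
  rw [smul_eq_mul]
  calc I.card * k ≤ ((Dv h).card * ((Dv h).card * 2)) * k := Nat.mul_le_mul_right _ h2
    _ ≤ ((2 * h.divisors.card) * ((2 * h.divisors.card) * 2)) * k := by gcongr
    _ = 8 * k * h.divisors.card ^ 2 := by ring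

end Pool.Agent.U363.AM
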