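import Pool.Agent.U363.AM.A
import Pool.Agent.U867.PM.Sums
import Pool.Agent.H510R2.Div

set_option autoImplicit false

/-!
# Weyl sums at the multiples of an algebraic number (helper363)

The fourth moment.
-/

open Finset

namespace Pool.Agent.U363.AM

open Pool.Agent.W928.MW (dl prs Q sm p_sq)
open Pool.Agent.N965.LN (dn Ksum)
open Pool.Agent.N965.LN.Fej (D D_neg norm_e e_add)
open Pool.Agent.U867.PM (mm mm_nonneg norm_D_le minsum)

theorem mm_le (H : ℕ) (x : ℝ) : mm H x ≤ H := by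
  unfold mm
  split_ifs
  · exact le_rfl
  · exact min_le_left _ _

theorem fe_re (x : ℝ) : (Pool.Agent.N965.LN.Fej.e x).re = Real.cos (2 * Real.pi * x) := by
  unfold Pool.Agent.N965.LN.Fej.e
  rw [mul_comm, Complex.exp_ofReal_mul_I_re]

theorem cos_sum (M : ℕ) (t₀ α : ℝ) (v : ℤ) :
    ∑ m ∈ range M, Real.cos (2 * Real.pi * (t₀ + (m : ℝ) * α) * (v : ℝ)) ≤
      mm M ((v.natAbs : ℝ) * α) := by
  have h1 : ∑ m ∈ range M, Real.cos (2 * Real.pi * (t₀ + (m : ℝ) * α) * (v : ℝ)) =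
      (Pool.Agent.N965.LN.Fej.e (t₀ * v) * D M ((v : ℝ) * α)).re := by
    unfold D
    rw [mul_sum, Complex.re_sum]
    refine sum_congr rfl fun m _ => ?_
    rw [← e_add, fe_re]
    congr 1
    ring
  rw [h1]
  refine (Complex.re_le_norm _).trans ?_
  rw [norm_mul, norm_e, one_mul]
  have h2 : ‖D M ((v : ℝ) * α)‖ = ‖D M ((v.natAbs : ℝ) * α)‖ := by
    rcases Int.natAbs_eq v with h | h
    · have h3 : (v : ℝ) = (v.natAbs : ℝ) := by
        conv_lhs => rw [h]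
        rw [Int.cast_natCast]
      rw [h3]
    · have h3 : (v : ℝ) = -(v.natAbs : ℝ) := by
        conv_lhs => rw [h]
        rw [Int.cast_neg, Int.cast_natCast]
      rw [h3, neg_mul, D_neg]
  rw [h2]
  exact norm_D_le le_rfl _

theorem Qsum (k N M : ℕ) (t₀ α : ℝ) :
    ∑ m ∈ range M, Q k N (t₀ + (m : ℝ) * α) ≤
      ∑ p ∈ TT N, mm M (((dl k p.2 p.1).natAbs : ℝ) * α) := by
  classical
  have h1 : ∑ b ∈ range M, Q k N (t₀ + (b : ℝ) * α) = ∑ m ∈ range (2 * N + 1), ∑ z ∈ prs N m,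
      ∑ w ∈ prs N m, ∑ b ∈ range M, Real.cos (2 * Real.pi * (t₀ + (b : ℝ) * α) * ((dl k z w : ℤ) : ℝ)) := by
    unfold Q
    rw [Finset.sum_comm]
    apply Finset.sum_congr rfl
    intro m _
    rw [Finset.sum_congr (s₁ := range M) rfl (fun b _ => p_sq k N m (t₀ + (b : ℝ) * α)), Finset.sum_comm]
    apply Finset.sum_congr rfl
    intro z _
    rw [Finset.sum_comm]
    apply Finset.sum_congr rfl
    intro w _
    apply Finset.sum_congr rfl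
    intro b _
    congr 2
    unfold dl
    push_cast
    ring
  rw [h1]
  have h2 : ∑ m ∈ range (2 * N + 1), ∑ z ∈ prs N m,
      ∑ w ∈ prs N m, ∑ b ∈ range M, Real.cos (2 * Real.pi * (t₀ + (b : ℝ) * α) * ((dl k z w : ℤ) : ℝ)) ≤
      ∑ m ∈ range (2 * N + 1), ∑ z ∈ prs N m, ∑ w ∈ prs N m, mm M (((dl k z w).natAbs : ℝ) * α) :=
    Finset.sum_le_sum (fun m _ => Finset.sum_le_sum (fun z _ => Finset.sum_le_sum (fun w _ =>
      cos_sum M t₀ α (dl k z w))))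
  refine h2.trans (le_of_eq ?_)
  have h3 : ∑ m ∈ range (2 * N + 1), ∑ z ∈ prs N m, ∑ w ∈ prs N m, mm M (((dl k z w).natAbs : ℝ) * α) =
      ∑ w ∈ (Icc 1 N) ×ˢ (Icc 1 N), ∑ z ∈ prs N (w.1 + w.2), mm M (((dl k z w).natAbs : ℝ) * α) := by
    rw [← Finset.sum_fiberwise_of_maps_to (s := (Icc 1 N) ×ˢ (Icc 1 N)) (t := range (2 * N + 1))
      (g := fun z : ℕ × ℕ => z.1 + z.2)]
    · apply Finset.sum_congr rfl
      intro m _
      rw [Finset.sum_comm]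
      apply Finset.sum_congr rfl
      intro w hw
      unfold prs at hw
      rw [Finset.mem_filter] at hw
      rw [hw.2]
    · intro z hz
      rw [Finset.mem_product, Finset.mem_Icc, Finset.mem_Icc] at hz
      rw [Finset.mem_range]
      omega
  rw [h3]
  symm
  unfold TT
  rw [Finset.sum_filter, Finset.sum_product]
  refine sum_congr rfl fun w _ => ?_
  unfold prs
  rw [Finset.sum_filter]

theorem dl_le (k N : ℕ) {p : (ℕ × ℕ) × (ℕ × ℕ)} (hp : p ∈ TT N) :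
    (dl k p.2 p.1).natAbs ≤ 2 * N ^ k := by
  obtain ⟨⟨y1, y2⟩, ⟨x1, x2⟩⟩ := p
  unfold TT at hp
  rw [mem_filter, mem_product, mem_product, mem_product, mem_Icc, mem_Icc, mem_Icc, mem_Icc] at hp
  obtain ⟨⟨⟨⟨a1, a2⟩, a3, a4⟩, ⟨a5, a6⟩, a7, a8⟩, hs⟩ := hp
  simp only at a1 a2 a3 a4 a5 a6 a7 a8 hs
  have h1 : x1 ^ k + x2 ^ k ≤ 2 * N ^ k := by
    have := Nat.pow_le_pow_left a6 k
    have := Nat.pow_le_pow_left a8 k
    omega
  have h2 : y1 ^ k + y2 ^ k ≤ 2 * N ^ k := by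
    have := Nat.pow_le_pow_left a2 k
    have := Nat.pow_le_pow_left a4 k
    omega
  have h3 : dl k (x1, x2) (y1, y2) = ((x1 ^ k + x2 ^ k : ℕ) : ℤ) - ((y1 ^ k + y2 ^ k : ℕ) : ℤ) := by
    unfold dl
    push_cast
    ring
  show (dl k (x1, x2) (y1, y2)).natAbs ≤ 2 * N ^ k
  rw [h3]
  omega

theorem mom {α : ℝ} (hK : Ksum (fun _ : Fin 1 => α)) (k : ℕ) (hk : 3 ≤ k) (τ : ℝ) (hτ : 0 < τ) :
    ∃ C : ℝ, 0 < C ∧ ∀ N M : ℕ, 1 ≤ N → 1 ≤ M → ∀ t₀ : ℝ,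
      ∑ m ∈ range M, Q k N (t₀ + (m : ℝ) * α) ≤
        2 * (N : ℝ) ^ 2 * M + C * ((N : ℝ) ^ k) ^ (1 + τ) * (M : ℝ) ^ τ := by
  classical
  obtain ⟨C2, hC2, hmin⟩ := minsum hK τ hτ
  obtain ⟨C1, hC1, hdiv⟩ := Pool.Agent.H510R2.divisor_bound (τ / 2) (by positivity)
  refine ⟨8 * k * C1 ^ 2 * C2 * (2 : ℝ) ^ (1 + τ) , by positivity, fun N M hN hM t₀ => ?_⟩
  have hN1 : (1 : ℝ) ≤ N := by exact_mod_cast hN
  have hM1 : (1 : ℝ) ≤ M := by exact_mod_cast hM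
  set H : ℕ := 2 * N ^ k with hH
  have hH1 : 1 ≤ H := by
    have := Nat.pos_of_ne_zero (pow_ne_zero k (by omega : N ≠ 0))
    omega
  have hH0 : (1 : ℝ) ≤ H := by exact_mod_cast hH1
  refine (Qsum k N M t₀ α).trans ?_
  have h0 : (0 : ℕ) ∉ Icc 1 H := by
    rw [mem_Icc]
    omega
  rw [← Finset.sum_fiberwise_of_maps_to (s := TT N) (t := insert 0 (Icc 1 H))
      (g := fun p => (dl k p.2 p.1).natAbs)]
  swap
  · intro p hp
    have h1 := dl_le k N hp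
    rw [mem_insert, mem_Icc]
    omega
  rw [sum_insert h0]
  apply add_le_add
  · refine (sum_le_card_nsmul _ _ (M : ℝ) fun p _ => mm_le _ _).trans ?_
    rw [nsmul_eq_mul]
    apply mul_le_mul_of_nonneg_right _ (by positivity)
    have h1 := card_diag k N (by omega)
    have h2 : (TT N).filter (fun p => (dl k p.2 p.1).natAbs = 0) =
        (TT N).filter (fun p => dl k p.2 p.1 = 0) := by
      refine filter_congr fun p _ => ?_
      exact Int.natAbs_eq_zero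
    rw [h2]
    exact_mod_cast h1
  · have h1 : ∀ h ∈ Icc 1 H, ∑ p ∈ (TT N).filter (fun p => (dl k p.2 p.1).natAbs = h),
        mm M (((dl k p.2 p.1).natAbs : ℝ) * α) ≤ (8 * k * C1 ^ 2 * (H : ℝ) ^ τ) * mm M ((h : ℝ) * α) := by
      intro h hh
      rw [mem_Icc] at hh
      have hh0 : (0 : ℝ) ≤ h := by positivity
      have e1 : ∑ p ∈ (TT N).filter (fun p => (dl k p.2 p.1).natAbs = h),
          mm M (((dl k p.2 p.1).natAbs : ℝ) * α) =
          (((TT N).filter (fun p => (dl k p.2 p.1).natAbs = h)).card : ℝ) * mm M ((h : ℝ) * α) := by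
        rw [← nsmul_eq_mul, ← sum_const]
        refine sum_congr rfl fun p hp => ?_
        rw [(mem_filter.1 hp).2]
      rw [e1]
      apply mul_le_mul_of_nonneg_right _ (mm_nonneg _ _)
      have e2 := card_rep k N hk h hh.1
      have e3 : (((TT N).filter (fun p => (dl k p.2 p.1).natAbs = h)).card : ℝ) ≤
          8 * k * (h.divisors.card : ℝ) ^ 2 := by exact_mod_cast e2
      refine e3.trans ?_
      have e4 : (h.divisors.card : ℝ) ≤ C1 * (H : ℝ) ^ (τ / 2) := by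
        refine (hdiv h hh.1).trans (mul_le_mul_of_nonneg_left ?_ hC1.le)
        exact Real.rpow_le_rpow hh0 (by exact_mod_cast hh.2) (by positivity)
      have e5 : (h.divisors.card : ℝ) ^ 2 ≤ C1 ^ 2 * (H : ℝ) ^ τ := by
        calc (h.divisors.card : ℝ) ^ 2 ≤ (C1 * (H : ℝ) ^ (τ / 2)) ^ 2 :=
              pow_le_pow_left₀ (by positivity) e4 2
          _ = C1 ^ 2 * (H : ℝ) ^ τ := by
              rw [mul_pow, ← Real.rpow_natCast ((H : ℝ) ^ (τ / 2)) 2, ← Real.rpow_mul (by positivity)]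
              congr 2
              push_cast
              ring
      calc 8 * (k : ℝ) * (h.divisors.card : ℝ) ^ 2 ≤ 8 * k * (C1 ^ 2 * (H : ℝ) ^ τ) :=
            mul_le_mul_of_nonneg_left e5 (by positivity)
        _ = 8 * k * C1 ^ 2 * (H : ℝ) ^ τ := by ring
    refine (sum_le_sum h1).trans ?_
    rw [← mul_sum]
    refine (mul_le_mul_of_nonneg_left (hmin M hM H) (by positivity)).trans (le_of_eq ?_)
    have e1 : (H : ℝ) ^ τ * H = (2 : ℝ) ^ (1 + τ) * ((N : ℝ) ^ k) ^ (1 + τ) := by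
      rw [← Real.mul_rpow (by norm_num) (by positivity)]
      have e2 : (2 * (N : ℝ) ^ k) = (H : ℝ) := by
        rw [hH]
        push_cast
        ring
      rw [e2, Real.rpow_add (by linarith), Real.rpow_one]
      ring
    calc 8 * k * C1 ^ 2 * (H : ℝ) ^ τ * (C2 * H * (M : ℝ) ^ τ) =
          8 * k * C1 ^ 2 * C2 * ((H : ℝ) ^ τ * H) * (M : ℝ) ^ τ := by ring
      _ = _ := by
          rw [e1]
          ring

/-- the fourth moment, with arbitrary linear coefficients -/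
theorem four {α : ℝ} (hK : Ksum (fun _ : Fin 1 => α)) (k : ℕ) (hk : 3 ≤ k) (ε : ℝ) (hε : 0 < ε) :
    ∃ C : ℝ, 0 < C ∧ ∀ N M : ℕ, 1 ≤ N → 1 ≤ M → ∀ (t₀ : ℝ) (ξ : ℕ → ℝ),
      ∑ m ∈ range M, ‖sm k N (t₀ + (m : ℝ) * α) (ξ m)‖ ^ 4 ≤
        C * ((N : ℝ) ^ 3 * M + (N : ℝ) ^ ((k : ℝ) + 1 + ε) * (M : ℝ) ^ ε) := by
  have hk0 : (0 : ℝ) < k := by exact_mod_cast (by omega : 0 < k)
  set τ : ℝ := ε / k with hτ
  have hτ0 : 0 < τ := by positivity
  obtain ⟨C, hC, h⟩ := mom hK k hk τ hτ0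
  refine ⟨6 + 3 * C, by positivity, fun N M hN hM t₀ ξ => ?_⟩
  have hN1 : (1 : ℝ) ≤ N := by exact_mod_cast hN
  have hN0 : (0 : ℝ) < N := by linarith
  have hM1 : (1 : ℝ) ≤ M := by exact_mod_cast hM
  have h1 : ∑ m ∈ range M, ‖sm k N (t₀ + (m : ℝ) * α) (ξ m)‖ ^ 4 ≤
      (2 * (N : ℝ) + 1) * ∑ m ∈ range M, Q k N (t₀ + (m : ℝ) * α) := by
    rw [mul_sum]
    exact sum_le_sum fun m _ => Pool.Agent.W928.MW.sup k N _ _
  have h2 := h N M hN hM t₀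
  have h3 : (2 * (N : ℝ) + 1) ≤ 3 * N := by linarith
  have h4 : 0 ≤ 2 * (N : ℝ) ^ 2 * M + C * ((N : ℝ) ^ k) ^ (1 + τ) * (M : ℝ) ^ τ := by positivity
  have h5 : ((N : ℝ) ^ k) ^ (1 + τ) * N = (N : ℝ) ^ ((k : ℝ) + 1 + ε) := by
    rw [← Real.rpow_natCast, ← Real.rpow_mul hN0.le, ← Real.rpow_add_one hN0.ne']
    congr 1
    rw [hτ]
    field_simp
    ring
  have h6 : (M : ℝ) ^ τ ≤ (M : ℝ) ^ ε := by
    apply Real.rpow_le_rpow_of_exponent_le hM1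
    rw [hτ]
    apply div_le_self hε.le
    exact_mod_cast (by omega : 1 ≤ k)
  calc ∑ m ∈ range M, ‖sm k N (t₀ + (m : ℝ) * α) (ξ m)‖ ^ 4
      ≤ (2 * (N : ℝ) + 1) * ∑ m ∈ range M, Q k N (t₀ + (m : ℝ) * α) := h1
    _ ≤ (2 * (N : ℝ) + 1) * (2 * (N : ℝ) ^ 2 * M + C * ((N : ℝ) ^ k) ^ (1 + τ) * (M : ℝ) ^ τ) :=
        mul_le_mul_of_nonneg_left h2 (by positivity)
    _ ≤ (3 * N) * (2 * (N : ℝ) ^ 2 * M + C * ((N : ℝ) ^ k) ^ (1 + τ) * (M : ℝ) ^ τ) :=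
        mul_le_mul_of_nonneg_right h3 h4
    _ = 6 * ((N : ℝ) ^ 3 * M) + 3 * C * ((((N : ℝ) ^ k) ^ (1 + τ) * N) * (M : ℝ) ^ τ) := by ring
    _ = 6 * ((N : ℝ) ^ 3 * M) + 3 * C * ((N : ℝ) ^ ((k : ℝ) + 1 + ε) * (M : ℝ) ^ τ) := by rw [h5]
    _ ≤ 6 * ((N : ℝ) ^ 3 * M) + 3 * C * ((N : ℝ) ^ ((k : ℝ) + 1 + ε) * (M : ℝ) ^ ε) := by
        have := mul_le_mul_of_nonneg_left h6 (by positivity : (0 : ℝ) ≤ 3 * C * (N : ℝ) ^ ((k : ℝ) + 1 + ε))
        linarith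
    _ ≤ (6 + 3 * C) * ((N : ℝ) ^ 3 * M + (N : ℝ) ^ ((k : ℝ) + 1 + ε) * (M : ℝ) ^ ε) := by
        have e1 : (0 : ℝ) ≤ C * ((N : ℝ) ^ 3 * M) := by positivity
        have e2 : (0 : ℝ) ≤ (N : ℝ) ^ ((k : ℝ) + 1 + ε) * (M : ℝ) ^ ε := by positivity
        nlinarith

end Pool.Agent.U363.AM
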